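import Pool.Agent.MP_81f5b7_pr.H66.Spec

/-! Ignition: just above the threshold there is a large class. -/

set_option linter.unusedSectionVars false

namespace Pool.Agent.MP_81f5b7_pr.H66

open Finset
open scoped Classical

namespace IGN

theorem pow_le {q : ℝ} (h1 : q ≤ 1) (k : ℕ) : (1 - q) ^ k * (1 + k * q) ≤ 1 := by
  have h2 : (1 - q) ^ k ≤ Real.exp (-(k * q)) := by
    rw [← mul_neg, Real.exp_nat_mul]
    exact pow_le_pow_left₀ (sub_nonneg.2 h1) (Real.one_sub_le_exp_neg q) k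
  have h3 : 1 + k * q ≤ Real.exp (k * q) := by linarith [Real.add_one_le_exp (k * q)]
  calc (1 - q) ^ k * (1 + k * q) ≤ (1 - q) ^ k * Real.exp (k * q) :=
        mul_le_mul_of_nonneg_left h3 (pow_nonneg (sub_nonneg.2 h1) k)
    _ ≤ Real.exp (-(k * q)) * Real.exp (k * q) :=
        mul_le_mul_of_nonneg_right h2 (Real.exp_pos _).le
    _ = 1 := by rw [← Real.exp_add, neg_add_cancel, Real.exp_zero]

/-- the two periods -/
theorem split {q n δ : ℝ} {m : ℕ} (hδ : 0 < δ) (hδ1 : δ ≤ 1) (hn : 24 / δ ≤ n) (h0 : 0 < q)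
    (h1 : q ≤ 1) (hq : q * n ^ 4 = 1) (hm : 3 / 2 + δ ≤ m * q * n) :
    ∃ a b : ℕ, m = a + b ∧ δ / 4 ≤ b * q * n ∧ 3 / 2 + δ / 4 ≤ (1 - (1 - q) ^ a) * n := by
  rw [div_le_iff₀ hδ] at hn
  have n1 : 1 ≤ n := by nlinarith
  have hqn : 0 < q * n := by positivity
  have h2 : q * n ≤ δ / 4 := by
    have e1 : n ≤ n ^ 3 := le_self_pow₀ n1 (by norm_num)
    have e2 : q * n * n ≤ 1 := by
      calc q * n * n ≤ q * n * n ^ 3 := mul_le_mul_of_nonneg_left e1 hqn.le
        _ = 1 := by rw [← hq]; ring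
    nlinarith
  obtain ⟨a, a1, a2⟩ : ∃ a : ℕ, 3 / 2 + δ / 2 ≤ a * q * n ∧ a * q * n ≤ 3 / 2 + δ / 2 + q * n := by
    refine ⟨⌈(3 / 2 + δ / 2) / (q * n)⌉₊, ?_, ?_⟩
    · rw [mul_assoc, ← div_le_iff₀ hqn]
      exact Nat.le_ceil _
    · have := (Nat.ceil_lt_add_one (a := (3 / 2 + δ / 2) / (q * n)) (by positivity)).le
      have h3 := mul_le_mul_of_nonneg_right this hqn.le
      rwa [add_mul, div_mul_cancel₀ _ hqn.ne', one_mul, ← mul_assoc] at h3
  have h3 : a ≤ m := by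
    have : (a : ℝ) * (q * n) ≤ m * (q * n) := by nlinarith
    exact_mod_cast le_of_mul_le_mul_right this hqn
  refine ⟨a, m - a, by omega, ?_, ?_⟩
  · rw [Nat.cast_sub h3]
    nlinarith
  · have h4 := pow_le h1 a
    have h5 : (0 : ℝ) ≤ a * q := by positivity
    have h6 : a * q ≤ δ / 8 := by nlinarith
    have h7 : (3 / 2 + δ / 4) * (1 + a * q) ≤ (1 - (1 - q) ^ a) * n * (1 + a * q) := by
      nlinarith
    exact le_of_mul_le_mul_right h7 (by positivity)

variable {V : Type} [Fintype V] [DecidableEq V]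

theorem mono_append (σ : V → C3) (l l' : List (Finset (Sym2 V))) :
    mono σ (l ++ l') = mono σ l + mono σ l' := by
  simp [mono]

theorem card_un_le (σ : V → C3) (l : List (Finset (Sym2 V))) :
    ((un l).filter fun e => ¬e.IsDiag ∧ ¬bi σ e).card ≤ mono σ l := by
  induction l with
  | nil => simp [un]
  | cons B l ih =>
    rw [show un (B :: l) = B ∪ un l from rfl, filter_union]
    exact (card_union_le _ _).trans (Nat.add_le_add_left ih _)

end IGN

theorem rowIGN : OfIGN := by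
  intro hNM hPA hSP hRE δ T κ hδ hκ
  have hδ' : 0 < min δ 1 := lt_min hδ one_pos
  obtain ⟨c, η, hc, hη, hPA⟩ := hPA (min δ 1 / 4) (by positivity)
  obtain ⟨r, hr, hSP⟩ := hSP c (min δ 1 / 4) hc (by positivity)
  obtain ⟨N₁, h₁⟩ := hNM T (κ / 4) 0 (by positivity)
  obtain ⟨N₂, h₂⟩ := hPA (κ / 4) (by positivity)
  obtain ⟨N₃, h₃⟩ := hSP (κ / 4) (by positivity)
  refine ⟨κ * r / (4 * (|T| + 1)), η, N₁ + N₂ + N₃ + 2 + ⌈24 / min δ 1⌉₊, by positivity, hη, ?_⟩
  intro V _ _ τ Z q m hN hOk hq ht hT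
  obtain ⟨q0, q1, -, -⟩ := hq.le (by omega)
  have hn : (0 : ℝ) < Fintype.card V := by exact_mod_cast (by omega : 0 < Fintype.card V)
  obtain ⟨a, b, rfl, hb, ha⟩ := IGN.split (m := m) hδ' (min_le_right _ _)
    (Nat.ceil_le.1 (by omega : ⌈24 / min δ 1⌉₊ ≤ Fintype.card V)) hq.1 q1 hq.2
    (le_trans (by linarith [min_le_left δ 1]) ht)
  have e₁ := h₁ V q (a + b) (by omega) hq hT
  have e₂ := h₂ V τ Z (1 - (1 - q) ^ a) (by omega) hOk
    (by linarith [pow_nonneg (sub_nonneg.2 q1) a]) ha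
  rw [← EL_un, ← PL, ← PL_take a b] at e₂
  have e₃ := PL_drop q0 q1 a b (c := κ / 4) (fun l l' => (∃ (L : ℕ) (v : ℕ → V) (u : ℕ → C3),
      c * Fintype.card V ≤ L ∧ Chain τ Z (un l) L v u) ∧ ∃ σ ∈ S0 τ Z,
      (((un l).filter fun e => ¬e.IsDiag ∧ ¬bi σ e).card + mono σ l' : ℝ) ≤ r * Fintype.card V)
    fun l _ => by
      by_cases h : ∃ (L : ℕ) (v : ℕ → V) (u : ℕ → C3),
          c * Fintype.card V ≤ L ∧ Chain τ Z (un l) L v u
      · obtain ⟨L, v, u, k1, k2⟩ := h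
        exact (PL_mono q0 q1 fun l' _ h => h.2).trans
          (h₃ V τ Z q b (un l) L v u (by omega) hq hb k1 k2)
      · rw [PL_false fun l' _ h' => h h'.1]
        positivity
  have e₄ := hRE V q (a + b) (S0 τ Z) (r * Fintype.card V)
    (κ * r / (4 * (|T| + 1)) * Fintype.card V) q0 q1 (by positivity) (by positivity)
  have e₅ : tm V q (a + b) * (κ * r / (4 * (|T| + 1)) * Fintype.card V) / (r * Fintype.card V) ≤
      κ / 4 := by
    have h1 : tm V q (a + b) ≤ |T| + 1 := by linarith [le_abs_self T]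
    refine (div_le_div_of_nonneg_right (mul_le_mul_of_nonneg_right h1 (by positivity))
      (by positivity)).trans (le_of_eq ?_)
    field_simp
  refine le_trans (le_trans (PL_mono q0 q1 fun l _ h => ?_) ((PL_or q0 q1 _ _).trans
    (add_le_add ((PL_or q0 q1 _ _).trans (add_le_add e₁ e₂))
      ((PL_or q0 q1 _ _).trans (add_le_add e₃ (e₄.trans e₅)))))) (by linarith)
  obtain ⟨σ, hσ⟩ := run_ne (S0_ne τ Z) l
  by_cases k1 : NM l
  swap
  · exact Or.inl (Or.inl (Or.inl k1))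
  by_cases k2 : ∃ (L : ℕ) (v : ℕ → V) (u : ℕ → C3),
      c * Fintype.card V ≤ L ∧ Chain τ Z (un (l.take a)) L v u
  swap
  · exact Or.inl (Or.inr k2)
  rcases le_total (r * Fintype.card V) (mono σ l) with k3 | k3
  · exact Or.inr (Or.inr ⟨k1, ⟨σ, hσ, k3⟩, h⟩)
  · refine Or.inr (Or.inl ⟨k2, σ, run_sub _ _ hσ, le_trans ?_ k3⟩)
    have k4 := IGN.mono_append σ (l.take a) (l.drop a)
    rw [List.take_append_drop] at k4
    have k5 := IGN.card_un_le σ (l.take a)
    exact_mod_cast (by omega : _ + mono σ (l.drop a) ≤ mono σ l)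

end Pool.Agent.MP_81f5b7_pr.H66
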